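import Pool.Agent.MP_f67ce1_al.SD.Upper

/-! General lemmas: semisimple projective modules, dimension shifting, and an extension ring. -/

set_option autoImplicit false

namespace Pool.Agent.MP_f67ce1_al.SD

open CategoryTheory

section Modules

variable {A : Type} [Ring A] {M N : Type} [AddCommGroup M] [Module A M] [AddCommGroup N]
  [Module A N]

/-- Semisimple and projective. -/
def SP (A M : Type) [Ring A] [AddCommGroup M] [Module A M] : Prop :=
  IsSemisimpleModule A M ∧ Module.Projective A M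

theorem SP.sub (h : SP A M) (f : N →ₗ[A] M) (hf : Function.Injective f) : SP A N := by
  obtain ⟨h1, h2⟩ := h
  obtain ⟨g, hg⟩ := IsSemisimpleModule.extension_property f hf LinearMap.id
  exact ⟨.of_injective f hf, .of_split f g hg⟩

theorem SP.quot (h : SP A M) (f : M →ₗ[A] N) (hf : Function.Surjective f) : SP A N := by
  obtain ⟨h1, h2⟩ := h
  obtain ⟨g, hg⟩ := IsSemisimpleModule.lifting_property f hf LinearMap.id
  exact ⟨.of_surjective f hf, .of_split g f hg⟩

theorem SP.finsupp (h : SP A M) (ι : Type) : SP A (ι →₀ M) := by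
  classical
  obtain ⟨h1, h2⟩ := h
  exact ⟨inferInstance, .of_equiv' (finsuppLequivDFinsupp A (ι := ι) (M := M)).symm⟩

theorem SP.pi (h : SP A M) (ι : Type) [Fintype ι] : SP A (ι → M) :=
  (h.finsupp ι).quot (Finsupp.linearEquivFunOnFinite A M ι).toLinearMap
    (Finsupp.linearEquivFunOnFinite A M ι).surjective

theorem proj_ext (f : M →ₗ[A] N) (hf : Function.Surjective f) (h1 : Module.Projective A N)
    (h2 : Module.Projective A (LinearMap.ker f)) : Module.Projective A M := by
  obtain ⟨s, hs⟩ := Module.projective_lifting_property f LinearMap.id hf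
  have e : ∀ y, f (s y) = y := fun y => LinearMap.congr_fun hs y
  refine .of_split (M := LinearMap.ker f × N)
    (LinearMap.prod (LinearMap.codRestrict _ (LinearMap.id - s ∘ₗ f) fun x => by simp [e]) f)
    (LinearMap.coprod (LinearMap.ker f).subtype s) ?_
  ext x
  simp

theorem proj_of_sup (U Q I : Submodule A A) (hI : SP A I) (hU : Module.Projective A U)
    (h : U ⊔ I = Q ⊔ I) : Module.Projective A Q := by
  have hY : Module.Projective A (U ⊔ I : Submodule A A) := by
    let U' : Submodule A (U ⊔ I : Submodule A A) := U.submoduleOf _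
    refine proj_ext U'.mkQ U'.mkQ_surjective
      (hI.quot (U'.mkQ ∘ₗ Submodule.inclusion le_sup_right) fun p => ?_).2 ?_
    · obtain ⟨⟨x, hx⟩, rfl⟩ := U'.mkQ_surjective p
      obtain ⟨u, hu, i, hi, rfl⟩ := Submodule.mem_sup.1 hx
      refine ⟨⟨i, hi⟩, (Submodule.Quotient.eq U').2 ?_⟩
      change i - (u + i) ∈ U
      simpa using hu
    · rw [U'.ker_mkQ]
      exact .of_equiv' (Submodule.submoduleOfEquivOfLe le_sup_left).symm
  rw [h] at hY
  let f : (Q × I) →ₗ[A] (Q ⊔ I : Submodule A A) :=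
    (Submodule.inclusion le_sup_left).coprod (Submodule.inclusion le_sup_right)
  have hf : Function.Surjective f := by
    rintro ⟨x, hx⟩
    obtain ⟨u, hu, i, hi, rfl⟩ := Submodule.mem_sup.1 hx
    exact ⟨(⟨u, hu⟩, ⟨i, hi⟩), rfl⟩
  have hQ : Module.Projective A (Q × I) := by
    refine proj_ext f hf hY (hI.sub (LinearMap.snd A Q I ∘ₗ (LinearMap.ker f).subtype) ?_).2
    rw [injective_iff_map_eq_zero]
    rintro ⟨⟨u, i⟩, hx⟩ h0
    obtain rfl : i = 0 := h0
    have : (u : A) + 0 = 0 := congrArg Subtype.val hx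
    obtain rfl : u = 0 := Subtype.ext (by simpa using this)
    rfl
  exact .of_split (LinearMap.inl A Q I) (LinearMap.fst A Q I) rfl

/-- The principal left ideal. -/
abbrev pl (w : A) : Submodule A A := LinearMap.range (LinearMap.toSpanSingleton A A w)

theorem mem_pl {w x : A} : x ∈ pl w ↔ ∃ c, c * w = x := Iff.rfl

theorem proj_pl (e w : A) (h1 : e * w = w) (h2 : ∀ x, x * w = 0 → x * e = 0) :
    Module.Projective A (pl w) := by
  let f := LinearMap.toSpanSingleton A A w
  refine .of_split (M := A) ((LinearMap.ker f).liftQ (LinearMap.toSpanSingleton A A e)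
    (fun x hx => h2 x hx) ∘ₗ f.quotKerEquivRange.symm.toLinearMap) f.rangeRestrict ?_
  refine LinearMap.ext fun y => ?_
  obtain ⟨p, rfl⟩ := f.quotKerEquivRange.surjective y
  obtain ⟨x, rfl⟩ := (LinearMap.ker f).mkQ_surjective p
  simp only [LinearMap.comp_apply, LinearEquiv.coe_coe, LinearEquiv.symm_apply_apply]
  apply Subtype.ext
  change x * e * w = x * w
  rw [mul_assoc, h1]

theorem shift (hN : SP A N) (j : N →ₗ[A] A) (e w w' : A) (he : e * e = e) (h1 : e * w = w)
    (h2 : w' * w = 0) (h3 : w' * e = w')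
    (h4 : ∀ s, s * e = s → s * w = 0 → ∃ c n, s = c * w' + j n) (m : ℕ)
    (h : HasProjectiveDimensionLT (ModuleCat.of A (pl w)) (m + 2)) :
    HasProjectiveDimensionLT (ModuleCat.of A (pl w')) (m + 1) := by
  have hP : Module.Projective A (pl e) := proj_pl e e he fun _ h => h
  let f : pl e →ₗ[A] pl w := (LinearMap.toSpanSingleton A A w).rangeRestrict ∘ₗ (pl e).subtype
  have hf : Function.Surjective f := by
    rintro ⟨_, c, rfl⟩
    exact ⟨⟨c * e, c, rfl⟩, Subtype.ext (by change c * e * w = c * w; rw [mul_assoc, h1])⟩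
  have hK := ((LinearMap.shortExact_shortComplexKer hf).hasProjectiveDimensionLT_X₃_iff m
    (inferInstanceAs (Projective (ModuleCat.of A (pl e))))).1 h
  have me : ∀ x : A, x ∈ pl e ↔ x * e = x := fun x =>
    ⟨by rintro ⟨c, rfl⟩; change c * e * e = c * e; rw [mul_assoc, he], fun h => ⟨x, h⟩⟩
  have mk : ∀ x : pl e, x ∈ LinearMap.ker f ↔ (x : A) * w = 0 := fun x => Subtype.ext_iff
  let L : Submodule A A := (LinearMap.ker f).map (pl e).subtype
  have mL : ∀ x, x ∈ L ↔ x * e = x ∧ x * w = 0 := fun x =>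
    ⟨by rintro ⟨y, hy, rfl⟩; exact ⟨(me _).1 y.2, (mk y).1 hy⟩,
      fun h => ⟨⟨x, (me x).2 h.1⟩, (mk _).2 h.2, rfl⟩⟩
  have hL : HasProjectiveDimensionLT (ModuleCat.of A L) (m + 1) :=
    hasProjectiveDimensionLT_of_iso
      ((LinearMap.ker f).equivMapOfInjective _ (pl e).injective_subtype).toModuleIso _
  have hle : pl w' ≤ L := by
    rintro _ ⟨c, rfl⟩
    exact L.smul_mem c ((mL w').2 ⟨h3, h2⟩)
  let U : Submodule A L := (pl w').submoduleOf L
  have hQ : Module.Projective A (L ⧸ U) := by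
    refine ((hN.sub _ (L.comap j).injective_subtype).quot
      (U.mkQ ∘ₗ j.restrict (p := L.comap j) (q := L) fun _ h => h) fun p => ?_).2
    obtain ⟨⟨x, hx⟩, rfl⟩ := U.mkQ_surjective p
    obtain ⟨c, n, e1⟩ := h4 x ((mL x).1 hx).1 ((mL x).1 hx).2
    have hn : j n ∈ L := by
      rw [← sub_eq_iff_eq_add'.2 e1]
      exact L.sub_mem hx (hle ⟨c, rfl⟩)
    refine ⟨⟨n, hn⟩, (Submodule.Quotient.eq U).2 ?_⟩
    change j n - x ∈ pl w'
    exact ⟨-c, by rw [e1]; simp⟩
  have hU := (LinearMap.shortExact_shortComplexKer U.mkQ_surjective).hasProjectiveDimensionLT_X₁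
    (m + 1) hL (pd_one hQ _)
  exact hasProjectiveDimensionLT_of_iso
    ((LinearEquiv.ofEq _ _ U.ker_mkQ).trans (Submodule.submoduleOfEquivOfLe hle)).toModuleIso _

end Modules

/-- Data for an extension of a ring `H` by a module `T` over a ring `E`. -/
structure Data (H E T : Type) [Ring H] [Ring E] [AddCommGroup T] [Module E T] where
  /-- The map of rings. -/
  φ : H →+* E
  /-- The structure map of the module. -/
  β : T →ₗ[E] E
  /-- The right action of `H`. -/
  r : H → T →ₗ[E] T
  r_one : ∀ t, r 1 t = t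
  r_mul : ∀ h h' t, r (h * h') t = r h' (r h t)
  r_add : ∀ h h' t, r (h + h') t = r h t + r h' t
  β_r : ∀ h t, β (r h t) = β t * φ h

variable {H E T : Type} [Ring H] [Ring E] [AddCommGroup T] [Module E T]

/-- The extension ring. -/
def Ex (_ : Data H E T) : Type := H × T

namespace Ex

variable {D : Data H E T}

instance : AddCommGroup (Ex D) := inferInstanceAs (AddCommGroup (H × T))

instance : One (Ex D) := ⟨(1, 0)⟩

instance : Mul (Ex D) := ⟨fun x y => (x.1 * y.1, D.r y.1 x.2 + (D.φ x.1 + D.β x.2) • y.2)⟩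

theorem ext {x y : Ex D} (h1 : x.1 = y.1) (h2 : x.2 = y.2) : x = y := Prod.ext h1 h2

@[simp] theorem add_1 (x y : Ex D) : (x + y).1 = x.1 + y.1 := rfl
@[simp] theorem add_2 (x y : Ex D) : (x + y).2 = x.2 + y.2 := rfl
@[simp] theorem sub_1 (x y : Ex D) : (x - y).1 = x.1 - y.1 := rfl
@[simp] theorem sub_2 (x y : Ex D) : (x - y).2 = x.2 - y.2 := rfl
@[simp] theorem zero_1 : (0 : Ex D).1 = 0 := rfl
@[simp] theorem zero_2 : (0 : Ex D).2 = 0 := rfl
@[simp] theorem one_1 : (1 : Ex D).1 = 1 := rfl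
@[simp] theorem one_2 : (1 : Ex D).2 = 0 := rfl
@[simp] theorem mul_1 (x y : Ex D) : (x * y).1 = x.1 * y.1 := rfl
theorem mul_2' (x y : Ex D) : (x * y).2 = D.r y.1 x.2 + (D.φ x.1 + D.β x.2) • y.2 := rfl

theorem r_zero (t : T) : D.r 0 t = 0 := by
  have := D.r_add 0 0 t
  rw [add_zero] at this
  exact left_eq_add.1 this

theorem ρ_mul (x y : Ex D) :
    D.φ (x * y).1 + D.β (x * y).2 = (D.φ x.1 + D.β x.2) * (D.φ y.1 + D.β y.2) := by
  rw [mul_1, mul_2', map_mul, map_add, map_smul, D.β_r, smul_eq_mul]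
  noncomm_ring

instance : Ring (Ex D) where
  __ := (inferInstance : AddCommGroup (Ex D))
  mul_assoc x y w := ext (mul_assoc _ _ _) (by
    rw [mul_2', ρ_mul, mul_2' x y, mul_2' x, mul_2' y, mul_1, D.r_mul, map_add, map_smul, mul_smul,
      smul_add, add_assoc])
  one_mul x := ext (one_mul _) (by simp [mul_2'])
  mul_one x := ext (mul_one _) (by simp [mul_2', D.r_one])
  zero_mul x := ext (zero_mul _) (by simp [mul_2'])
  mul_zero x := ext (mul_zero _) (by simp [mul_2', r_zero])
  left_distrib x y w := ext (mul_add _ _ _) (by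
    simp only [mul_2', add_1, add_2, D.r_add, smul_add]
    abel)
  right_distrib x y w := ext (add_mul _ _ _) (by
    simp only [mul_2', add_1, add_2, map_add, add_smul]
    abel)

/-- The representation. -/
def ρ (D : Data H E T) : Ex D →+* E where
  toFun x := D.φ x.1 + D.β x.2
  map_one' := by simp
  map_mul' := ρ_mul
  map_zero' := by simp
  map_add' x y := by
    simp only [add_1, add_2, map_add]
    abel

theorem ρ_apply (x : Ex D) : ρ D x = D.φ x.1 + D.β x.2 := rfl

theorem mul_2 (x y : Ex D) : (x * y).2 = D.r y.1 x.2 + ρ D x • y.2 := rfl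

end Ex

end Pool.Agent.MP_f67ce1_al.SD
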