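import Pool.Agent.MP_f67ce1_al.SD.Ring
import Pool.Agent.MP_f67ce1_al.Kaplansky

/-! The ring is left hereditary; the kernel of its representation is prime and nilpotent. -/

set_option autoImplicit false

namespace Pool.Agent.MP_f67ce1_al.SD

open Finset

variable {d : ℕ} {A : Type} [Ring A]

/-- The module `T` over a ring acting on `V`. -/
def TT (_ : A →+* E d) : Type := T d

noncomputable instance (σ : A →+* E d) : AddCommGroup (TT σ) :=
  inferInstanceAs (AddCommGroup (T d))

noncomputable instance (σ : A →+* E d) : Module A (TT σ) := Module.compHom (T d) σ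

theorem rk_add (j : Fin d) (c : ℕ × Bool) (y y' : V d) : rk j c (y + y') = rk j c y + rk j c y' :=
  Subtype.ext (by simp [rk, Finsupp.single_add, Pi.single_add])

theorem rk_smul (j : Fin d) (c : ℕ × Bool) (B : E d) (y : V d) : rk j c (B y) = B • rk j c y :=
  Subtype.ext (by simp [rk, ← Pi.single_smul])

theorem trans_β (x : V d) (hx : x ≠ 0) (y : V d) : ∃ t : T d, β t x = y := by
  obtain ⟨b, hb⟩ := Function.ne_iff.1 hx
  obtain ⟨c, hc⟩ := Function.ne_iff.1 hb
  exact ⟨rk b c ((x b c)⁻¹ • y), by rw [β_rk, smul_smul, mul_inv_cancel₀ hc, one_smul]⟩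

theorem tv_ne (b : Fin d) (c : ℕ × Bool) : tv b c ≠ 0 := fun h => by
  simpa [tv] using congrFun (congrFun h b) c

theorem sp (o : Fin d) (σ : A →+* E d) (j : TT σ →ₗ[A] A) (hj : ∀ t, σ (j t) = β (d := d) t) :
    SP A (TT σ) := by
  let : Module A (V d) := Module.compHom _ σ
  have h1 : IsSimpleModule A (V d) :=
    isSimpleModule_iff_toSpanSingleton_surjective.2 ⟨⟨_, _, tv_ne o (0, true)⟩, fun x hx y => by
      obtain ⟨t, ht⟩ := trans_β x hx y
      refine ⟨j t, ?_⟩
      change σ (j t) x = y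
      rw [hj, ht]⟩
  let s : V d →ₗ[A] TT σ :=
    { toFun := rk o (0, true), map_add' := rk_add _ _
      map_smul' := fun a y => rk_smul _ _ (σ a) y }
  have h2 : Module.Projective A (V d) :=
    .of_split (j ∘ₗ s) (LinearMap.toSpanSingleton A (V d) (tv o (0, true)))
      (LinearMap.ext fun y => by
        change σ (j (rk o (0, true) y)) (tv o (0, true)) = y
        rw [hj, β_rk]
        simp [tv])
  have h3 : SP A (V d) := ⟨inferInstance, h2⟩
  let i : TT σ →ₗ[A] (Fin d → Fin d → G d) :=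
    { toFun := fun t => (show T d from t).1, map_add' := fun _ _ => rfl
      map_smul' := fun _ _ => rfl }
  exact (((h3.finsupp _).pi _).pi _).sub i Subtype.val_injective

/-- The inclusion of the ideal. -/
noncomputable def ι : TT (ρ (d := d)) →ₗ[R d] R d where
  toFun t := (0, t)
  map_add' _ _ := Ex.ext (zero_add _).symm rfl
  map_smul' x t := Ex.ext (mul_zero _).symm (by
    change ρ x • (show T d from t) = (D d).r 0 x.2 + ρ x • (show T d from t)
    rw [Ex.r_zero, zero_add])

theorem ρ_ι (t : TT (ρ (d := d))) : ρ (ι t) = β (d := d) t := by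
  change φ 0 + β (d := d) t = _
  rw [map_zero, zero_add]

theorem mem_sup_ι (N : Submodule (R d) (R d)) (x : R d) :
    x ∈ N ⊔ LinearMap.range ι ↔ ∃ y ∈ N, y.1 = x.1 := by
  rw [Submodule.mem_sup]
  constructor
  · rintro ⟨y, hy, _, ⟨t, rfl⟩, rfl⟩
    exact ⟨y, hy, (add_zero _).symm⟩
  · rintro ⟨y, hy, e⟩
    exact ⟨y, hy, ι (x.2 - y.2), ⟨_, rfl⟩, Ex.ext ((add_zero _).trans e) (add_sub_cancel y.2 x.2)⟩

theorem cancel_u (x : R d) (a b : Fin d) (h : a ≤ b) (hx : x * u a b h 1 = 0) :
    x * u a a le_rfl 1 = 0 := by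
  refine R.ext (fun i k => ?_) fun j k => ?_
  · have := mul_u_1 x a b h 1 i b
    rw [hx, if_pos rfl] at this
    rw [mul_u_1, ← this]
    exact ite_self _
  · have := mul_u_2 x a b h 1 j b
    rw [hx, if_pos rfl] at this
    rw [mul_u_2, ← this]
    exact ite_self _

theorem her_col (b : Fin d) (Q : Submodule (R d) (R d)) (hQ : ∀ x ∈ Q, x * u b b le_rfl 1 = x) :
    Module.Projective (R d) Q := by
  classical
  have hI : SP (R d) (LinearMap.range (ι (d := d))) :=
    (sp b ρ ι ρ_ι).quot _ ι.surjective_rangeRestrict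
  have hc : ∀ x ∈ Q, ∀ i k, k ≠ b → x.1.1 i k = 0 := fun x hx i k hk => by
    rw [← hQ x hx, mul_u_1, if_neg hk.symm]
  let s := univ.filter fun i => ∃ x ∈ Q, x.1.1 i b ≠ 0
  rcases s.eq_empty_or_nonempty with h | h
  · refine (hI.sub (Submodule.inclusion fun x hx => ?_) (Submodule.inclusion_injective _)).2
    refine ⟨x.2, Ex.ext (Subtype.ext (Matrix.ext fun i k => ?_)) rfl⟩
    by_cases e : k = b
    · by_contra h0
      exact notMem_empty i (h ▸ mem_filter.2 ⟨mem_univ _, x, hx, fun e' => h0 (e ▸ e'.symm)⟩)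
    · exact (hc x hx i k e).symm
  · obtain ⟨a, ha, hm⟩ := exists_max_image s id h
    obtain ⟨x₀, hx₀, h₀⟩ := (mem_filter.1 ha).2
    have hab : a ≤ b := not_lt.1 fun e => h₀ (x₀.1.tri e)
    refine proj_of_sup (pl (u a b hab 1)) Q _ hI
      (proj_pl (u a a le_rfl 1) _ (by rw [u_mul_u, mul_one]) fun x => cancel_u x a b hab)
      (le_antisymm (sup_le ?_ le_sup_right) (sup_le (fun x hx => ?_) le_sup_right))
    · rintro _ ⟨c, rfl⟩
      refine Submodule.smul_mem _ c ((mem_sup_ι _ _).2
        ⟨u a a le_rfl (x₀.1.1 a b)⁻¹ * x₀, Q.smul_mem _ hx₀, Subtype.ext (Matrix.ext fun i k => ?_)⟩)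
      rw [mul_1, u_1, u_1]
      by_cases e : i = a
      · subst e
        rw [Matrix.single_mul_apply_same]
        by_cases e' : k = b
        · rw [e', inv_mul_cancel₀ h₀, Matrix.single_apply_same]
        · rw [hc x₀ hx₀ i k e', mul_zero, Matrix.single_apply_of_col_ne _ _ (Ne.symm e')]
      · rw [Matrix.single_mul_apply_of_ne _ _ _ _ _ e, Matrix.single_apply_of_row_ne (Ne.symm e)]
    · let y : R d := (⟨Matrix.of fun i k => if k = a then x.1.1 i b else 0, fun i k hk => by
        rw [Matrix.of_apply]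
        split_ifs with e
        · by_contra h0
          exact absurd (hm i (mem_filter.2 ⟨mem_univ _, x, hx, h0⟩)) (not_le.2 (e ▸ hk))
        · rfl⟩, 0)
      refine (mem_sup_ι _ _).2 ⟨y * u a b hab 1, ⟨y, rfl⟩, Subtype.ext (Matrix.ext fun i k => ?_)⟩
      rw [mul_u_1]
      split_ifs with e
      · simp [y, e]
      · exact (hc x hx i k (Ne.symm e)).symm

theorem hereditary : Her (R d) (R d) := fun L => by
  refine projective_of_coords (ι := Fin d)
    (fun b => LinearMap.toSpanSingleton (R d) (R d) (u b b le_rfl 1) ∘ₗ L.subtype)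
    (fun _ => Set.toFinite _) (fun x hx => Subtype.ext (R.ext (fun i k => ?_) fun j k => ?_))
    fun b => her_col b _ ?_
  · have := mul_u_1 x.1 k k le_rfl 1 i k
    rw [show x.1 * u k k le_rfl 1 = 0 from hx k, if_pos rfl, mul_one] at this
    exact this.symm
  · have := mul_u_2 x.1 k k le_rfl 1 j k
    rw [show x.1 * u k k le_rfl 1 = 0 from hx k, if_pos rfl, one_smul] at this
    exact this.symm
  · rintro _ ⟨x, -, rfl⟩
    change x.1 * u b b le_rfl 1 * u b b le_rfl 1 = x.1 * u b b le_rfl 1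
    rw [mul_assoc, u_mul_u, mul_one]

theorem ker_prime (a b : R d) (h : ∀ r, ρ (a * r * b) = 0) : ρ a = 0 ∨ ρ b = 0 := by
  by_contra h0
  obtain ⟨v, hv⟩ := DFunLike.ne_iff.1 fun e => h0 (Or.inl e)
  obtain ⟨w, hw⟩ := DFunLike.ne_iff.1 fun e => h0 (Or.inr e)
  obtain ⟨t, ht⟩ := trans_β _ hw v
  have := LinearMap.congr_fun (h (ι t)) w
  rw [map_mul, map_mul, ρ_ι, Module.End.mul_apply, Module.End.mul_apply, ht] at this
  exact hv this

/-- The columns below `c` vanish. -/
def Lev (c : ℕ) (x : R d) : Prop :=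
  ∀ b : Fin d, (b : ℕ) < c → (∀ i, x.1.1 i b = 0) ∧ ∀ j, x.2.1 j b = 0

theorem lev_prod (l : List (R d)) (hl : ∀ x ∈ l, ρ x = 0) :
    ∀ (c : ℕ) (y : R d), ρ y = 0 → Lev c y → Lev (c + 2 * l.length) (y * l.prod) := by
  induction l with
  | nil => intro c y _ h; simpa using h
  | cons x l ih =>
    intro c y hy h
    have hx := hl x List.mem_cons_self
    have := ih (fun w hw => hl w (List.mem_cons_of_mem _ hw)) (c + 2) (y * x)
      (by rw [map_mul, hy, zero_mul]) fun b hb => ⟨fun i => ?_, fun j => ?_⟩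
    · rw [List.prod_cons, ← mul_assoc, List.length_cons]
      convert this using 1
      ring
    · rw [mul_1, Matrix.mul_apply]
      refine sum_eq_zero fun a _ => ?_
      by_cases e : (a : ℕ) < c
      · rw [(h a e).1, zero_mul]
      · rw [ker_1 x hx a b (by omega), mul_zero]
    · rw [mul_2, hy, zero_smul, add_zero, ra_apply]
      refine sum_eq_zero fun a _ => ?_
      by_cases e : (a : ℕ) < c
      · rw [(h a e).2, smul_zero]
      · rw [ker_1 x hx a b (by omega), zero_smul]

theorem nilp (a : ℕ) (l : List (R (2 * a + 1))) (h : l.length = a + 1) (hl : ∀ x ∈ l, ρ x = 0) :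
    l.prod = 0 := by
  obtain ⟨x, l, rfl⟩ := List.exists_cons_of_length_eq_add_one h
  have hx := hl x List.mem_cons_self
  have := lev_prod l (fun w hw => hl w (List.mem_cons_of_mem _ hw)) 1 x hx fun b hb =>
    ⟨fun i => ker_1 x hx i b (by omega), fun j => ker_2 x hx j b hb⟩
  have e : l.length = a := by simpa using h
  rw [List.prod_cons]
  exact R.ext (fun i b => (this b (by have := b.2; omega)).1 i)
    fun j b => (this b (by have := b.2; omega)).2 j

end Pool.Agent.MP_f67ce1_al.SD
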