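import Pool.Agent.MP_f67ce1_al.SD.Her

/-! Lower bound for the projective dimension of left ideals of the residue ring. -/

set_option autoImplicit false

namespace Pool.Agent.MP_f67ce1_al.SD

open Finset CategoryTheory

variable {d : ℕ} {A : Type} [Ring A]

/-- The arrows. -/
noncomputable def ar (i : ℕ) (h : i + 1 < d) : R d :=
  u ⟨i, by omega⟩ ⟨i + 1, h⟩ (Fin.le_def.2 (Nat.le_succ i)) 1

theorem ρ_zero (x : R d) (h1 : ∀ a b : Fin d, (b : ℕ) ≤ a + 1 → x.1.1 a b = 0) (h2 : x.2 = 0) :
    ρ x = 0 := by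
  rw [ρ_eq, φ0_zero _ h1, h2, map_zero, add_zero]

theorem base (q : R d →+* A) (hq : Function.Surjective q) (hk : ∀ x, q x = 0 ↔ ρ x = 0)
    (h : 0 + 1 < d) : ¬ Module.Projective A (pl (q (ar 0 h))) := by
  intro hP
  let f := (LinearMap.toSpanSingleton A A (q (ar 0 h))).rangeRestrict
  obtain ⟨s, hs⟩ := Module.projective_lifting_property f LinearMap.id
    (LinearMap.surjective_rangeRestrict _)
  obtain ⟨x, hx⟩ := hq (s (f 1))
  have h1 : q x * q (ar 0 h) = 1 * q (ar 0 h) := by
    rw [hx]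
    exact congrArg Subtype.val (LinearMap.congr_fun hs (f 1))
  have h2 : ∀ y, y * q (ar 0 h) = 0 → y * q x = 0 := fun y hy => by
    have e : y • f 1 = 0 := Subtype.ext (by
      change y * (1 * q (ar 0 h)) = 0
      rw [one_mul, hy])
    rw [hx, ← smul_eq_mul, ← map_smul, e, map_zero]
  let o : Fin d := ⟨0, by omega⟩
  have h3 : x.1.1 o o = 1 := by
    have e : ρ ((x - 1) * ar 0 h) = 0 := by
      rw [← hk, map_mul, map_sub, map_one, sub_mul, h1, sub_self]
    have := ker_1 _ e o ⟨0 + 1, h⟩ le_rfl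
    rw [ar, mul_u_1, if_pos rfl, mul_one] at this
    have e2 : x.1.1 o o - (1 : Matrix (Fin d) (Fin d) ℚ) o o = 0 := this
    rwa [Matrix.one_apply_eq, sub_eq_zero] at e2
  obtain ⟨n, hn⟩ := test x
  have h4 := h2 (q (ι (rk o (n, true) (tv o (0, true))))) (by
    rw [← map_mul, hk, map_mul, ρ_ι]
    refine LinearMap.ext fun v => ?_
    rw [Module.End.mul_apply, β_rk, ρ_eq, ar, u_1, u_2, map_zero, add_zero, φ0_apply,
      sum_eq_single ⟨0 + 1, h⟩]
    · simp [o, z_apply]
    · intro b _ hb
      rw [Matrix.single_apply_of_col_ne _ _ hb.symm, zero_smul]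
    · simp)
  rw [← map_mul, hk, map_mul, ρ_ι] at h4
  have h5 := LinearMap.congr_fun h4 (tv o (n, true))
  rw [Module.End.mul_apply, β_rk, hn, h3] at h5
  exact tv_ne o (0, true) (by simpa using h5)

theorem low (q : R d →+* A) (hq : Function.Surjective q) (hk : ∀ x, q x = 0 ↔ ρ x = 0) (i : ℕ) :
    ∀ h : i + 1 < d, ¬ HasProjectiveDimensionLT (ModuleCat.of A (pl (q (ar i h)))) (i + 1) := by
  obtain ⟨σ, hσ⟩ : ∃ σ : A →+* E d, ∀ x, σ (q x) = ρ x :=
    ⟨q.liftOfSurjective hq ⟨ρ, fun x hx => (hk x).1 hx⟩, fun x =>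
      q.liftOfRightInverse_comp_apply _ _ _ x⟩
  let j : TT σ →ₗ[A] A :=
    { toFun := fun t => q (ι t)
      map_add' := fun t t' => (congrArg q (ι.map_add t t')).trans (q.map_add _ _)
      map_smul' := fun a t => by
        obtain ⟨x, rfl⟩ := hq a
        change q (ι (show T d from σ (q x) • (show T d from t))) = q x * q (ι t)
        rw [hσ, ← map_mul]
        exact congrArg q (ι.map_smul x t) }
  induction i with
  | zero =>
    intro h hP
    exact base q hq hk h ((IsProjective.iff_projective _).2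
      (projective_iff_hasProjectiveDimensionLT_one.2 hP))
  | succ i ih =>
    intro h hP
    have h' : i + 1 < d := by omega
    let b : Fin d := ⟨i + 1, h'⟩
    let a : Fin d := ⟨i, by omega⟩
    refine ih h' (shift (sp a σ j fun t => (hσ _).trans (ρ_ι t)) j (q (u b b le_rfl 1)) _ _
      ?_ ?_ ?_ ?_ ?_ i hP)
    · rw [← map_mul, u_mul_u, mul_one]
    · rw [← map_mul, ar, u_mul_u, mul_one]
    · rw [← map_mul, ar, ar, u_mul_u, hk]
      refine ρ_zero _ (fun k l hl => Matrix.single_apply_of_ne _ _ _ _ _ ?_) rfl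
      rintro ⟨rfl, rfl⟩
      simp at hl
    · rw [← map_mul, ar, u_mul_u, mul_one]
    · intro s h1 h2
      obtain ⟨x, rfl⟩ := hq s
      let y := x * u b b le_rfl 1
      have e : q x = q y := by rw [map_mul, h1]
      have y1 : ∀ k l, y.1.1 k l = if b = l then x.1.1 k b * 1 else 0 := mul_u_1 x b b le_rfl 1
      have h3 : x.1.1 b b = 0 := by
        rw [← map_mul, hk] at h2
        have := ker_1 _ h2 b ⟨i + 1 + 1, h⟩ le_rfl
        rwa [ar, mul_u_1, if_pos rfl, mul_one] at this
      refine ⟨q (u a a le_rfl (x.1.1 a b)), y.2, ?_⟩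
      change q x = q _ * q _ + q (ι y.2)
      rw [e, ← map_mul, ← map_add, ← sub_eq_zero, ← map_sub, hk, ar, u_mul_u, mul_one]
      refine ρ_zero _ (fun k l hl => ?_) ?_
      · change y.1.1 k l - (Matrix.single a b (x.1.1 a b) k l + 0) = 0
        rw [y1, add_zero, mul_one, sub_eq_zero]
        by_cases e1 : b = l
        · subst e1
          rw [if_pos rfl]
          by_cases e2 : a = k
          · rw [← e2, Matrix.single_apply_same]
          · rw [Matrix.single_apply_of_row_ne e2]
            by_cases e3 : k = b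
            · rw [e3, h3]
            · refine x.1.tri (Fin.lt_def.2 ?_)
              have := Fin.val_ne_of_ne e2
              have := Fin.val_ne_of_ne e3
              simp only [a, b] at *
              omega
        · rw [if_neg e1, Matrix.single_apply_of_col_ne _ _ e1]
      · exact sub_eq_zero.2 (zero_add y.2).symm

theorem lower (a : ℕ) (q : R (2 * a + 1) →+* A) (hq : Function.Surjective q)
    (hk : ∀ x, q x = 0 ↔ ρ x = 0) :
    ∃ L : Submodule A A, ¬ HasProjectiveDimensionLT (ModuleCat.of A L) (2 * a) := by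
  rcases Nat.eq_zero_or_pos a with rfl | h
  · refine ⟨⊤, fun hP => ?_⟩
    have := ModuleCat.isZero_iff_subsingleton.1
      ((hasProjectiveDimensionLT_zero_iff_isZero _).1 hP)
    have e : (1 : A) = 0 := congrArg Subtype.val (this.elim ⟨1, trivial⟩ ⟨0, trivial⟩)
    have e2 := (hk 1).1 (by rw [map_one, e])
    rw [map_one] at e2
    exact tv_ne 0 (0, true) (LinearMap.congr_fun e2 _)
  · refine ⟨pl (q (ar (2 * a - 1) (by omega))), fun hP => low q hq hk (2 * a - 1) (by omega) ?_⟩
    exact hasProjectiveDimensionLT_of_ge _ (2 * a) _ (by omega)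

end Pool.Agent.MP_f67ce1_al.SD
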