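import Pool.Agent.MP_f67ce1_al.SD.Gen

/-! The ring: triangular matrices extended by a semisimple projective ideal. -/

set_option autoImplicit false

namespace Pool.Agent.MP_f67ce1_al.SD

open Finset

/-- The basic vector space. -/
abbrev V0 : Type := ℕ × Bool → ℚ

/-- An operator of square zero. -/
def z : Module.End ℚ V0 where
  toFun u c := if c.2 then 0 else u (c.1, true)
  map_add' u v := funext fun c => by by_cases h : c.2 <;> simp [h]
  map_smul' a u := funext fun c => by by_cases h : c.2 <;> simp [h]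

theorem z_apply (u : V0) (c : ℕ × Bool) : z u c = if c.2 then 0 else u (c.1, true) := rfl

theorem z_pow {k : ℕ} (h : 2 ≤ k) : z ^ k = 0 := by
  obtain ⟨k, rfl⟩ := Nat.exists_eq_add_of_le h
  have : z ^ 2 = 0 := by
    ext u c
    simp [pow_two, z_apply]
  rw [pow_add, this, zero_mul]

theorem z_supp (n k : ℕ) (u : V0) (h : ∀ c : ℕ × Bool, c.1 ≠ n → u c = 0) :
    ∀ c : ℕ × Bool, c.1 ≠ n → (z ^ k) u c = 0 := by
  induction k with
  | zero => exact h
  | succ k ih =>
    intro c hc
    rw [pow_succ', Module.End.mul_apply, z_apply, ih (c.1, true) hc, ite_self]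

variable (d : ℕ)

/-- The simple module. -/
abbrev V : Type := Fin d → V0

/-- Its endomorphism ring. -/
abbrev E : Type := Module.End ℚ (V d)

/-- Upper triangular matrices. -/
abbrev H : Type := Matrix.blockTriangularSubalgebra ℚ ℚ (id : Fin d → Fin d)

/-- Finitely supported families of vectors. -/
abbrev G : Type := ℕ × Bool →₀ V d

/-- Upper triangular matrices of such families. -/
def T : Submodule (E d) (Fin d → Fin d → G d) where
  carrier := {t | ∀ j b, b < j → t j b = 0}
  add_mem' ha hb j b h := by simp [ha j b h, hb j b h]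
  zero_mem' _ _ _ := rfl
  smul_mem' c t ht j b h := by simp [ht j b h]

variable {d}

theorem H.tri (h : H d) {a b : Fin d} (hab : b < a) : h.1 a b = 0 := h.2 hab

/-- The action of a matrix. -/
noncomputable def φ0 (h : Matrix (Fin d) (Fin d) ℚ) : E d :=
  LinearMap.pi fun a => ∑ b, h a b • (z ^ ((b : ℕ) - a)) ∘ₗ LinearMap.proj b

theorem φ0_apply (h : Matrix (Fin d) (Fin d) ℚ) (v : V d) (a : Fin d) :
    φ0 h v a = ∑ b, h a b • (z ^ ((b : ℕ) - a)) (v b) := by
  simp [φ0, LinearMap.sum_apply]

theorem pow_φ0 (h : H d) (v : V d) {j b : Fin d} (hj : j ≤ b) :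
    (z ^ ((b : ℕ) - j)) (φ0 h.1 v b) = ∑ c, h.1 b c • (z ^ ((c : ℕ) - j)) (v c) := by
  rw [φ0_apply, map_sum]
  refine sum_congr rfl fun c _ => ?_
  rcases lt_or_ge c b with h1 | h1
  · simp [h.tri h1]
  · rw [map_smul, ← Module.End.mul_apply, ← pow_add]
    congr 3
    have := Fin.le_def.1 hj
    have := Fin.le_def.1 h1
    omega

/-- The action of the triangular matrices. -/
noncomputable def φ : H d →+* E d where
  toFun h := φ0 h.1
  map_one' := by
    refine LinearMap.ext fun v => funext fun a => ?_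
    simp [φ0_apply, Matrix.one_apply]
  map_mul' h h' := by
    refine LinearMap.ext fun v => funext fun a => ?_
    rw [Module.End.mul_apply, φ0_apply, φ0_apply]
    simp only [MulMemClass.coe_mul, Matrix.mul_apply, sum_smul]
    rw [sum_comm]
    refine sum_congr rfl fun b _ => ?_
    rcases lt_or_ge b a with h1 | h1
    · simp [h.tri h1]
    · rw [pow_φ0 h' v h1, smul_sum]
      simp only [mul_smul]
  map_zero' := by
    refine LinearMap.ext fun v => funext fun a => ?_
    simp [φ0_apply]
  map_add' h h' := by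
    refine LinearMap.ext fun v => funext fun a => ?_
    simp [φ0_apply, add_smul, sum_add_distrib]

/-- A family of vectors as a finite rank operator. -/
noncomputable def γ : G d →ₗ[E d] (V0 →ₗ[ℚ] V d) :=
  Finsupp.lsum ℕ fun c =>
    { toFun := fun y => (LinearMap.proj c : V0 →ₗ[ℚ] ℚ).smulRight y
      map_add' := fun x y => LinearMap.ext fun u => by simp
      map_smul' := fun A y => LinearMap.ext fun u => by simp }

theorem γ_single (c : ℕ × Bool) (y : V d) (u : V0) : γ (Finsupp.single c y) u = u c • y := by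
  simp [γ]

theorem γ_zero (g : G d) (u : V0) (h : ∀ c ∈ g.support, u c = 0) : γ g u = 0 := by
  conv_lhs => rw [← g.sum_single, Finsupp.sum, map_sum, LinearMap.sum_apply]
  exact sum_eq_zero fun c hc => by rw [γ_single, h c hc, zero_smul]

/-- The structure map. -/
noncomputable def β : T d →ₗ[E d] E d where
  toFun t := ∑ j, ∑ b, γ (t.1 j b) ∘ₗ (z ^ ((b : ℕ) - j)) ∘ₗ LinearMap.proj b
  map_add' t t' := by simp [LinearMap.add_comp, sum_add_distrib]
  map_smul' A t := LinearMap.ext fun v => by simp [LinearMap.sum_apply]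

theorem β_apply (t : T d) (v : V d) :
    β t v = ∑ j, ∑ b, γ (t.1 j b) ((z ^ ((b : ℕ) - j)) (v b)) := by
  simp [β, LinearMap.sum_apply]

/-- The right action. -/
noncomputable def ra (h : H d) : T d →ₗ[E d] T d where
  toFun t := ⟨fun j c => ∑ b, h.1 b c • t.1 j b, fun j c hc => sum_eq_zero fun b _ => by
    rcases lt_or_ge b j with h1 | h1
    · simp [t.2 j b h1]
    · simp [h.tri (hc.trans_le h1)]⟩
  map_add' t t' := Subtype.ext (funext₂ fun j c => by simp [sum_add_distrib])
  map_smul' A t := Subtype.ext (funext₂ fun j c => by simp [smul_sum, smul_comm A])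

theorem ra_apply (h : H d) (t : T d) (j c : Fin d) :
    (ra h t).1 j c = ∑ b, h.1 b c • t.1 j b := rfl

variable (d) in
/-- The data of the extension. -/
noncomputable def D : Data (H d) (E d) (T d) where
  φ := φ
  β := β
  r := ra
  r_one t := Subtype.ext (funext₂ fun j c => by simp [ra_apply, Matrix.one_apply])
  r_mul h h' t := Subtype.ext (funext₂ fun j c => by
    simp only [ra_apply, MulMemClass.coe_mul, Matrix.mul_apply, sum_smul, smul_sum]
    rw [sum_comm]
    simp only [smul_smul, mul_comm])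
  r_add h h' t := Subtype.ext (funext₂ fun j c => by simp [ra_apply, add_smul, sum_add_distrib])
  β_r h t := LinearMap.ext fun v => by
    rw [Module.End.mul_apply, β_apply, β_apply]
    refine sum_congr rfl fun j _ => ?_
    simp only [ra_apply, map_sum, LinearMap.sum_apply]
    rw [sum_comm]
    refine sum_congr rfl fun b _ => ?_
    rcases lt_or_ge b j with h1 | h1
    · simp [t.2 j b h1]
    · rw [show φ h = φ0 h.1 from rfl, pow_φ0 h v h1, map_sum]
      simp only [LinearMap.map_smul_of_tower, map_smul, LinearMap.smul_apply]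

variable (d) in
/-- The ring. -/
abbrev R : Type := Ex (D d)

/-- The representation on `V`. -/
noncomputable abbrev ρ : R d →+* E d := Ex.ρ (D d)

theorem ρ_eq (x : R d) : ρ x = φ0 x.1.1 + β x.2 := rfl

theorem mul_2 (x y : R d) : (x * y).2 = ra y.1 x.2 + ρ x • y.2 := rfl

/-- Matrix units. -/
noncomputable def u (a b : Fin d) (h : a ≤ b) (c : ℚ) : R d :=
  (⟨Matrix.single a b c, Matrix.blockTriangular_single (b := id) h c⟩, 0)

theorem u_1 (a b : Fin d) (h : a ≤ b) (c : ℚ) : (u a b h c).1.1 = Matrix.single a b c := rfl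

theorem u_2 (a b : Fin d) (h : a ≤ b) (c : ℚ) : (u a b h c).2 = 0 := rfl

theorem R.ext {x y : R d} (h1 : ∀ i b, x.1.1 i b = y.1.1 i b) (h2 : ∀ j b, x.2.1 j b = y.2.1 j b) :
    x = y := Ex.ext (Subtype.ext (Matrix.ext h1)) (Subtype.ext (funext₂ h2))

theorem mul_1 (x y : R d) : (x * y).1.1 = x.1.1 * y.1.1 := rfl

theorem mul_u_1 (x : R d) (a b : Fin d) (h : a ≤ b) (c : ℚ) (i k : Fin d) :
    (x * u a b h c).1.1 i k = if b = k then x.1.1 i a * c else 0 := by
  rw [mul_1, u_1]
  split_ifs with e
  · rw [← e, Matrix.mul_single_apply_same]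
  · rw [Matrix.mul_single_apply_of_ne _ _ _ _ _ (Ne.symm e)]

theorem mul_u_2 (x : R d) (a b : Fin d) (h : a ≤ b) (c : ℚ) (j k : Fin d) :
    (x * u a b h c).2.1 j k = if b = k then c • x.2.1 j a else 0 := by
  rw [mul_2, u_2, smul_zero, add_zero, ra_apply, u_1, sum_eq_single a]
  · simp [Matrix.single_apply]
  · intro i _ hi
    simp [hi.symm]
  · simp

theorem u_mul_u (a b k : Fin d) (h : a ≤ b) (h' : b ≤ k) (c c' : ℚ) :
    u a b h c * u b k h' c' = u a k (h.trans h') (c * c') :=
  Ex.ext (Subtype.ext (Matrix.single_mul_single_same _ _ _ _ _)) (by simp [mul_2, u_2])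

theorem fresh (t : T d) :
    ∃ n, ∀ v : V d, (∀ b, ∀ c : ℕ × Bool, c.1 ≠ n → v b c = 0) → β t v = 0 := by
  obtain ⟨n, hn⟩ := Infinite.exists_notMem_finset
    ((univ.biUnion fun j => univ.biUnion fun b => (t.1 j b).support).image Prod.fst)
  refine ⟨n, fun v hv => ?_⟩
  rw [β_apply]
  refine sum_eq_zero fun j _ => sum_eq_zero fun b _ => γ_zero _ _ fun c hc => ?_
  refine z_supp n _ _ (hv b) c fun e => hn (mem_image.2 ⟨c, ?_, e⟩)
  simp only [mem_biUnion, mem_univ, true_and]
  exact ⟨j, b, hc⟩

/-- Test vectors. -/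
noncomputable def tv (b : Fin d) (c : ℕ × Bool) : V d := Pi.single b (Pi.single c 1)

theorem test (x : R d) : ∃ n, ∀ a b,
    ρ x (tv b (n, true)) a = x.1.1 a b • (z ^ ((b : ℕ) - a)) (Pi.single (n, true) 1) := by
  obtain ⟨n, hn⟩ := fresh x.2
  refine ⟨n, fun a b => ?_⟩
  rw [ρ_eq, LinearMap.add_apply, hn, add_zero, φ0_apply, sum_eq_single b]
  · simp [tv]
  · intro i _ hi
    simp [tv, hi]
  · simp
  · intro i c hc
    by_cases e : i = b
    · subst e
      rw [tv, Pi.single_eq_same, Pi.single_eq_of_ne fun e => hc (congrArg Prod.fst e)]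
    · simp [tv, e]

theorem ker_1 (x : R d) (hx : ρ x = 0) (a b : Fin d) (h : (b : ℕ) ≤ a + 1) : x.1.1 a b = 0 := by
  obtain ⟨n, hn⟩ := test x
  have e := hn a b
  rw [hx] at e
  rcases Nat.eq_zero_or_pos ((b : ℕ) - a) with h1 | h1
  · simpa [h1] using (congrFun e (n, true)).symm
  · have h2 : (b : ℕ) - a = 1 := by omega
    simpa [h2, z_apply] using (congrFun e (n, false)).symm

theorem φ0_zero (h : Matrix (Fin d) (Fin d) ℚ) (h0 : ∀ a b : Fin d, (b : ℕ) ≤ a + 1 → h a b = 0) :
    φ0 h = 0 := by
  refine LinearMap.ext fun v => funext fun a => ?_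
  rw [φ0_apply]
  refine sum_eq_zero fun b _ => ?_
  by_cases e : (b : ℕ) ≤ a + 1
  · rw [h0 a b e, zero_smul]
  · rw [z_pow (by omega), LinearMap.zero_apply, smul_zero]

/-- Rank one elements. -/
noncomputable def rk (j : Fin d) (c : ℕ × Bool) (y : V d) : T d :=
  ⟨Pi.single j (Pi.single j (Finsupp.single c y)), fun i b h => by
    by_cases e : i = j
    · subst e
      simp [h.ne]
    · simp [e]⟩

theorem β_rk (j : Fin d) (c : ℕ × Bool) (y v : V d) : β (rk j c y) v = v j c • y := by
  rw [β_apply, sum_eq_single j, sum_eq_single j]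
  · simp [rk, γ_single]
  · intro i _ hi
    simp [rk, hi]
  · simp
  · intro i _ hi
    simp [rk, hi]
  · simp

theorem ker_2 (x : R d) (hx : ρ x = 0) (j b : Fin d) (hb : (b : ℕ) < 1) : x.2.1 j b = 0 := by
  have hj : ∀ i : Fin d, i ≠ b → x.2.1 i b = 0 := fun i hi =>
    x.2.2 i b (lt_of_le_of_ne (Fin.le_def.2 (by omega)) hi.symm)
  by_cases e : j = b
  · subst e
    rw [ρ_eq, φ0_zero _ (ker_1 x hx), zero_add] at hx
    ext1 c
    have := β_apply x.2 (tv j c)
    rw [hx, sum_eq_single j, sum_eq_single j] at this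
    · rw [← (x.2.1 j j).sum_single, Finsupp.sum, map_sum, LinearMap.sum_apply,
        sum_eq_single c] at this
      · simpa [γ_single, tv] using this.symm
      · intro i _ hi
        simp [γ_single, tv, hi]
      · intro hc
        simp [Finsupp.notMem_support_iff.1 hc]
    · intro i _ hi
      simp [tv, hi]
    · simp
    · intro i _ hi
      refine sum_eq_zero fun k _ => ?_
      by_cases e : k = j
      · simp [e, hj i hi]
      · simp [tv, e]
    · simp
  · exact hj j e

end Pool.Agent.MP_f67ce1_al.SD
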