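import Mathlib

/-! Projective dimension over a residue ring of a left hereditary ring. -/

set_option autoImplicit false

namespace Pool.Agent.MP_f67ce1_al.SD

open CategoryTheory

variable {R A : Type} [Ring R] [Ring A]

/-- The quotient of a projective module `X` by `I X` is projective over `R / I`. -/
theorem proj_of_semilinear (q : R →+* A) {X M : Type} [AddCommGroup X] [Module R X]
    [AddCommGroup M] [Module A M] [Module.Projective R X] (hq : Function.Surjective q)
    (g : X →ₛₗ[q] M) (hg : Function.Surjective g)
    (hk : ∀ x, g x = 0 → x ∈ RingHom.ker q • (⊤ : Submodule R X)) : Module.Projective A M := by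
  refine .of_lifting_property'' fun f hf => ?_
  let : Module R (M →₀ A) := Module.compHom _ q
  let : Module R M := Module.compHom _ q
  let f' : (M →₀ A) →ₗ[R] M :=
    { toFun := f, map_add' := f.map_add, map_smul' := fun r x => f.map_smul (q r) x }
  let g' : X →ₗ[R] M :=
    { toFun := g, map_add' := g.map_add, map_smul' := fun r x => g.map_smulₛₗ r x }
  obtain ⟨h, hh⟩ := Module.projective_lifting_property f' g' hf
  have h0 : ∀ x, g x = 0 → h x = 0 := fun x hx => by
    refine Submodule.smul_induction_on (p := fun x => h x = 0) (hk x hx) (fun r hr n _ => ?_)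
      fun x y h1 h2 => by rw [map_add, h1, h2, add_zero]
    rw [map_smul]
    change q r • h n = 0
    rw [(RingHom.mem_ker).1 hr, zero_smul]
  have h1 : ∀ x, h (Function.surjInv hg (g x)) = h x := fun x => by
    rw [← sub_eq_zero, ← map_sub]
    exact h0 _ (by rw [map_sub, Function.surjInv_eq hg, sub_self])
  refine ⟨{ toFun := fun m => h (Function.surjInv hg m), map_add' := fun m m' => ?_,
            map_smul' := fun a m => ?_ }, LinearMap.ext fun m => ?_⟩
  · obtain ⟨x, rfl⟩ := hg m
    obtain ⟨y, rfl⟩ := hg m'
    rw [← map_add, h1, h1, h1, map_add]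
  · obtain ⟨x, rfl⟩ := hg m
    obtain ⟨r, rfl⟩ := hq a
    rw [← g.map_smulₛₗ, h1, h1, map_smul]
    rfl
  · obtain ⟨x, rfl⟩ := hg m
    change f (h (Function.surjInv hg (g x))) = g x
    rw [h1]
    exact LinearMap.congr_fun hh x

theorem pd_one {M : Type} [AddCommGroup M] [Module A M] (h : Module.Projective A M) (m : ℕ) :
    HasProjectiveDimensionLT (ModuleCat.of A M) (m + 1) :=
  hasProjectiveDimensionLT_of_ge _ 1 _ (by omega)

theorem enn_step (q : R →+* A) (hq : Function.Surjective q) {X M : Type} [AddCommGroup X]
    [Module R X] [AddCommGroup M] [Module A M] [Module.Projective R X] (g : X →ₛₗ[q] M)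
    (hg : Function.Surjective g) :
    ∃ (K : Type) (_ : AddCommGroup K) (_ : Module A K) (g' : LinearMap.ker g →ₛₗ[q] K),
      Function.Surjective g' ∧
      (∀ y, g' y = 0 → (y : X) ∈ RingHom.ker q • (⊤ : Submodule R X)) ∧
      ∀ m, HasProjectiveDimensionLT (ModuleCat.of A K) m →
        HasProjectiveDimensionLT (ModuleCat.of A M) (m + 1) := by
  let N : Submodule R X := RingHom.ker q • ⊤
  let : SMul A (X ⧸ N) := ⟨fun a p => Function.surjInv hq a • p⟩
  have hs : ∀ (c : R) (p : X ⧸ N), q c • p = c • p := fun c p => by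
    obtain ⟨x, rfl⟩ := N.mkQ_surjective p
    change Function.surjInv hq (q c) • N.mkQ x = c • N.mkQ x
    rw [← sub_eq_zero, ← sub_smul, ← map_smul, Submodule.mkQ_apply, Submodule.Quotient.mk_eq_zero]
    exact Submodule.smul_mem_smul
      (by rw [RingHom.mem_ker, map_sub, Function.surjInv_eq hq, sub_self]) trivial
  let : Module A (X ⧸ N) := Function.Surjective.moduleLeft q hq hs
  let π : X →ₛₗ[q] X ⧸ N :=
    { toFun := N.mkQ, map_add' := N.mkQ.map_add
      map_smul' := fun r x => (N.mkQ.map_smul r x).trans (hs r _).symm }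
  have hP : Module.Projective A (X ⧸ N) :=
    proj_of_semilinear q hq π N.mkQ_surjective fun x hx => (Submodule.Quotient.mk_eq_zero N).1 hx
  have hN : N ≤ LinearMap.ker g := Submodule.smul_le.2 fun r hr n _ => by
    rw [LinearMap.mem_ker, g.map_smulₛₗ, (RingHom.mem_ker).1 hr, zero_smul]
  let φ : (X ⧸ N) →ₗ[A] M :=
    { toFun := N.liftQ g hN, map_add' := (N.liftQ g hN).map_add
      map_smul' := fun a p => by
        obtain ⟨r, rfl⟩ := hq a
        rw [hs, (N.liftQ g hN).map_smulₛₗ]
        rfl }
  have hφ : Function.Surjective φ := fun m => by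
    obtain ⟨x, rfl⟩ := hg m
    exact ⟨N.mkQ x, rfl⟩
  refine ⟨LinearMap.ker φ, inferInstance, inferInstance,
    LinearMap.codRestrict _ (π.domRestrict (LinearMap.ker g)) fun y => y.2, ?_, ?_, ?_⟩
  · rintro ⟨p, hp⟩
    obtain ⟨x, rfl⟩ := N.mkQ_surjective p
    exact ⟨⟨x, hp⟩, rfl⟩
  · intro y hy
    exact (Submodule.Quotient.mk_eq_zero N).1 (congrArg Subtype.val hy)
  · intro m hm
    exact (LinearMap.shortExact_shortComplexKer hφ).hasProjectiveDimensionLT_X₃ m hm (pd_one hP m)

/-- All submodules are projective. -/
def Her (R X : Type) [Ring R] [AddCommGroup X] [Module R X] : Prop :=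
  ∀ N : Submodule R X, Module.Projective R N

theorem Her.of_injective {X Y : Type} [AddCommGroup X] [Module R X] [AddCommGroup Y] [Module R Y]
    (h : Her R X) (f : Y →ₗ[R] X) (hf : Function.Injective f) : Her R Y := fun N => by
  have := h (N.map f)
  exact .of_equiv' (N.equivMapOfInjective f hf).symm

theorem Her.proj {X : Type} [AddCommGroup X] [Module R X] (h : Her R X) :
    Module.Projective R X := by
  have := h ⊤
  exact .of_equiv' Submodule.topEquiv

theorem enn (q : R →+* A) (hq : Function.Surjective q) (a : ℕ) :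
    ∀ (X M : Type) [AddCommGroup X] [Module R X] [AddCommGroup M] [Module A M]
      (g : X →ₛₗ[q] M), Her R X → Function.Surjective g →
      (∀ l : List R, l.length = a → (∀ x ∈ l, q x = 0) → ∀ y, g y = 0 → l.prod • y = 0) →
      HasProjectiveDimensionLT (ModuleCat.of A M) (2 * a + 1) := by
  induction a with
  | zero =>
    intro X M _ _ _ _ g hX hg h
    have := hX.proj
    refine pd_one (proj_of_semilinear q hq g hg fun x hx => ?_) _
    have := h [] rfl (by simp) x hx
    rw [List.prod_nil, one_smul] at this
    rw [this]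
    exact Submodule.zero_mem _
  | succ a ih =>
    intro X M _ _ _ _ g hX hg h
    have := hX.proj
    have hY := hX.of_injective _ (LinearMap.ker g).injective_subtype
    have := hY.proj
    obtain ⟨K, _, _, g', s', -, p'⟩ := enn_step q hq g hg
    obtain ⟨K', _, _, g'', s'', k'', p''⟩ := enn_step q hq g' s'
    refine p' _ (p'' _ (ih _ _ g'' (hY.of_injective _ (LinearMap.ker g').injective_subtype) s''
      fun l hl hq0 y hy => ?_))
    apply Subtype.ext
    refine Submodule.smul_induction_on (p := fun w => l.prod • w = 0) (k'' y hy)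
      (fun r hr n _ => ?_) fun x y h1 h2 => by rw [smul_add, h1, h2, add_zero]
    apply Subtype.ext
    have := h (l ++ [r]) (by simp [hl]) (by
      intro x hx
      rcases List.mem_append.1 hx with e | e
      · exact hq0 x e
      · rw [List.mem_singleton.1 e]
        exact hr) n n.2
    rwa [List.prod_append, List.prod_singleton, mul_smul] at this

/-- The bound of Eilenberg, Nagao and Nakayama. -/
theorem upper (q : R →+* A) (hq : Function.Surjective q) (hR : Her R R) (a : ℕ)
    (h : ∀ l : List R, l.length = a + 1 → (∀ x ∈ l, q x = 0) → l.prod = 0) (L : Submodule A A) :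
    HasProjectiveDimensionLT (ModuleCat.of A L) (2 * a + 1) := by
  let X : Submodule R R := Ideal.comap q L
  let g : X →ₛₗ[q] L :=
    { toFun := fun x => ⟨q x, x.2⟩, map_add' := fun x y => Subtype.ext (q.map_add _ _)
      map_smul' := fun r x => Subtype.ext (q.map_mul _ _) }
  refine enn q hq a X L g (hR.of_injective _ X.injective_subtype) ?_ fun l hl h0 y hy => ?_
  · rintro ⟨z, hz⟩
    obtain ⟨x, rfl⟩ := hq z
    exact ⟨⟨x, hz⟩, rfl⟩
  · apply Subtype.ext
    have := h (l ++ [y.1]) (by simp [hl]) (by
      intro x hx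
      rcases List.mem_append.1 hx with e | e
      · exact h0 x e
      · rw [List.mem_singleton.1 e]
        exact congrArg Subtype.val hy)
    rwa [List.prod_append, List.prod_singleton] at this

end Pool.Agent.MP_f67ce1_al.SD
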